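import Pool.Agent.W984.PH.Stm

set_option autoImplicit false

open Finset

namespace Pool.Agent.W215.PH

open Pool.Agent.W984.PH

section
variable {V : Type} [DecidableEq V] [Fintype V]

lemma Ex_add (α β : ℝ) (f g : (V → Fin 3) → ℝ) :
    Ex α β (fun ω => f ω + g ω) = Ex α β f + Ex α β g := by
  unfold Ex
  rw [← Finset.sum_add_distrib]
  exact Finset.sum_congr rfl (fun _ _ => by ring)

lemma Ex_smul (α β c : ℝ) (f : (V → Fin 3) → ℝ) :
    Ex α β (fun ω => c * f ω) = c * Ex α β f := by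
  unfold Ex
  rw [Finset.mul_sum]
  exact Finset.sum_congr rfl (fun _ _ => by ring)

lemma Ex_sum {ι : Type} (α β : ℝ) (S : Finset ι) (f : ι → (V → Fin 3) → ℝ) :
    Ex α β (fun ω => ∑ i ∈ S, f i ω) = ∑ i ∈ S, Ex α β (f i) := by
  unfold Ex
  simp only [Finset.mul_sum]
  exact Finset.sum_comm

/-- indicator that `e` misses the smaller random set -/
noncomputable def II (e : Finset V) (ω : V → Fin 3) : ℝ := if Disjoint e (SA ω) then 1 else 0

lemma II_mul (e e' : Finset V) (ω : V → Fin 3) : II e ω * II e' ω = II (e ∪ e') ω := by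
  unfold II
  simp only [Finset.disjoint_union_left]
  by_cases h1 : Disjoint e (SA ω) <;> by_cases h2 : Disjoint e' (SA ω) <;> simp [h1, h2]

lemma bern (α : ℝ) (h0 : 0 ≤ α) (h1 : α ≤ 1) (j m : ℕ) :
    (1 - α) ^ m - (1 - α) ^ (m + j) ≤ j * α := by
  have hp0 : 0 ≤ 1 - α := by linarith
  have hp1 : 1 - α ≤ 1 := by linarith
  have hb : 1 + (j : ℝ) * (-α) ≤ (1 + (-α)) ^ j := one_add_mul_le_pow (by linarith) j
  have hm1 : (1 - α) ^ m ≤ 1 := pow_le_one₀ hp0 hp1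
  have hm0 : 0 ≤ (1 - α) ^ m := pow_nonneg hp0 m
  have hj1 : (1 - α) ^ j ≤ 1 := pow_le_one₀ hp0 hp1
  have e1 : (1 - α) ^ m - (1 - α) ^ (m + j) = (1 - α) ^ m * (1 - (1 - α) ^ j) := by
    rw [pow_add]; ring
  rw [e1]
  have e2 : (1 + -α) = 1 - α := by ring
  rw [e2] at hb
  calc (1 - α) ^ m * (1 - (1 - α) ^ j) ≤ 1 * (1 - (1 - α) ^ j) :=
        mul_le_mul_of_nonneg_right hm1 (by linarith)
    _ ≤ j * α := by linarith

lemma cov_pair (h : S_PR) (α β : ℝ) (h0 : 0 ≤ α) (h1 : α ≤ 1) (e e' : Finset V) (r : ℕ)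
    (he : e.card = r) (he' : e'.card = r) :
    Ex α β (fun ω => (II e ω - (1 - α) ^ r) * (II e' ω - (1 - α) ^ r))
      ≤ ((e ∩ e').card : ℝ) * α := by
  obtain ⟨hone, -, hI⟩ := h V α β
  have hI' : ∀ e : Finset V, Ex α β (II e) = (1 - α) ^ e.card := hI
  have e1 : (fun ω => (II e ω - (1 - α) ^ r) * (II e' ω - (1 - α) ^ r))
      = fun ω => (II (e ∪ e') ω + (-(1 - α) ^ r) * II e ω)
        + ((-(1 - α) ^ r) * II e' ω + (1 - α) ^ (2 * r) * 1) := by
    funext ω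
    rw [← II_mul]
    ring
  rw [e1, Ex_add, Ex_add, Ex_add, Ex_smul, Ex_smul, Ex_smul, hI', hI', hI', hone, he, he']
  have hc := Finset.card_union_add_card_inter e e'
  rw [he, he'] at hc
  have e2 : 2 * r = (e ∪ e').card + (e ∩ e').card := by omega
  have hb := bern α h0 h1 (e ∩ e').card (e ∪ e').card
  rw [← e2] at hb
  have e3 : (1 - α) ^ (2 * r) = (1 - α) ^ r * (1 - α) ^ r := by rw [two_mul, pow_add]
  rw [e3] at hb ⊢
  linarith

end

/-- PH-COV -/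
theorem cov (h : S_PR) : S_COV := by
  intro V _ _ α β h0 hαβ hβ 𝒬 r x hQ hx
  have hα1 : α ≤ 1 := hαβ.trans hβ
  set c : Finset V → ℝ := fun e => ∏ v ∈ e, x v with hc
  have hcn : ∀ e, 0 ≤ c e := fun e => Finset.prod_nonneg (fun v _ => hx v)
  have e1 : ∀ ω : V → Fin 3, ms x 𝒬 (univ \ SA ω) = ∑ e ∈ 𝒬, c e * II e ω := by
    intro ω
    unfold ms II
    rw [Finset.sum_filter]
    apply Finset.sum_congr rfl
    intro e _
    have : e ⊆ univ \ SA ω ↔ Disjoint e (SA ω) := by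
      rw [Finset.subset_sdiff]
      simp
    simp only [this, mul_ite, mul_one, mul_zero]
    rfl
  have e2 : ms x 𝒬 univ = ∑ e ∈ 𝒬, c e := by
    unfold ms
    rw [Finset.filter_true_of_mem (fun e _ => Finset.subset_univ e)]
  have e3 : (fun ω : V → Fin 3 => (ms x 𝒬 (univ \ SA ω) - (1 - α) ^ r * ms x 𝒬 univ) ^ 2)
      = fun ω => ∑ e ∈ 𝒬, ∑ e' ∈ 𝒬, (c e * c e')
          * ((II e ω - (1 - α) ^ r) * (II e' ω - (1 - α) ^ r)) := by
    funext ω
    rw [e1, e2]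
    have : ∑ e ∈ 𝒬, c e * II e ω - (1 - α) ^ r * ∑ e ∈ 𝒬, c e
        = ∑ e ∈ 𝒬, c e * (II e ω - (1 - α) ^ r) := by
      rw [Finset.mul_sum, ← Finset.sum_sub_distrib]
      exact Finset.sum_congr rfl (fun _ _ => by ring)
    rw [this, sq, Finset.sum_mul_sum]
    exact Finset.sum_congr rfl (fun _ _ => Finset.sum_congr rfl (fun _ _ => by ring))
  rw [e3, Ex_sum]
  have e4 : ∀ e ∈ 𝒬, Ex α β (fun ω => ∑ e' ∈ 𝒬, (c e * c e')
      * ((II e ω - (1 - α) ^ r) * (II e' ω - (1 - α) ^ r)))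
      ≤ ∑ e' ∈ 𝒬, (c e * c e') * (((e ∩ e').card : ℝ) * α) := by
    intro e he
    rw [Ex_sum]
    apply Finset.sum_le_sum
    intro e' he'
    rw [Ex_smul]
    exact mul_le_mul_of_nonneg_left (cov_pair h α β h0 hα1 e e' r (hQ e he) (hQ e' he'))
      (mul_nonneg (hcn e) (hcn e'))
  refine (Finset.sum_le_sum e4).trans ?_
  have e5 : ∀ v, dg x 𝒬 v = ∑ e ∈ 𝒬, if v ∈ e then c e else 0 := by
    intro v
    unfold dg
    rw [Finset.sum_filter]
  have e6 : ∑ v, (dg x 𝒬 v) ^ 2 = ∑ e ∈ 𝒬, ∑ e' ∈ 𝒬, (c e * c e') * ((e ∩ e').card : ℝ) := by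
    have : ∀ v, (dg x 𝒬 v) ^ 2 = ∑ e ∈ 𝒬, ∑ e' ∈ 𝒬, (c e * c e') * (if v ∈ e ∩ e' then 1 else 0) := by
      intro v
      rw [e5, sq, Finset.sum_mul_sum]
      refine Finset.sum_congr rfl (fun e _ => Finset.sum_congr rfl (fun e' _ => ?_))
      by_cases h1 : v ∈ e <;> by_cases h2 : v ∈ e' <;> simp [h1, h2]
    simp only [this]
    rw [Finset.sum_comm]
    refine Finset.sum_congr rfl (fun e _ => ?_)
    rw [Finset.sum_comm]
    refine Finset.sum_congr rfl (fun e' _ => ?_)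
    rw [← Finset.mul_sum, Finset.sum_boole, Finset.filter_mem_eq_inter, Finset.univ_inter]
  rw [e6, Finset.mul_sum]
  apply le_of_eq
  refine Finset.sum_congr rfl (fun e _ => ?_)
  rw [Finset.mul_sum]
  exact Finset.sum_congr rfl (fun e' _ => by ring)

end Pool.Agent.W215.PH
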