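import Pool.Agent.W984.PH.Stm

set_option autoImplicit false

open Finset

namespace Pool.Agent.W215.PH

open Pool.Agent.W984.PH

/-- PH-LM: a bound for `e_r` gives bounds for all earlier ones. -/
theorem lm (h : S_KM) : S_LM := by
  intro V _ x U hx r κ hr hκ hrκ hbr
  set X : ℝ := ∑ v ∈ U, x v with hXdef
  have hX0 : 0 ≤ X := Finset.sum_nonneg hx
  have hen : ∀ j, 0 ≤ es x U j := es_nonneg x U hx
  have hAn : ∀ j, 0 ≤ ∑ v ∈ U, (x v) ^ 2 * es x (U.erase v) j := by
    intro j
    apply Finset.sum_nonneg
    intro v hv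
    exact mul_nonneg (sq_nonneg _) (es_nonneg x _ (fun w hw => hx w (Finset.mem_of_mem_erase hw)) j)
  have hone : ∀ j : ℕ, j + 1 ≤ r → 0 < 1 - (j : ℝ) * κ := by
    intro j hj
    have h1 : (j : ℝ) ≤ (r : ℝ) - 1 := by
      have : ((j + 1 : ℕ) : ℝ) ≤ r := by exact_mod_cast hj
      push_cast at this
      linarith
    have := mul_le_mul_of_nonneg_right h1 hκ
    linarith
  have hfp : ∀ j : ℕ, j ≤ r → 0 < fp j κ := by
    intro j hj
    unfold fp
    apply Finset.prod_pos
    intro i hi
    exact hone i (by have := Finset.mem_range.mp hi; omega)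
  by_contra hcon
  push Not at hcon
  obtain ⟨i1, hi1, hi2⟩ := hcon
  have hex : ∃ i, i ≤ r ∧ fp i κ * X ^ i < (i.factorial : ℝ) * es x U i := ⟨i1, hi1, hi2⟩
  classical
  obtain ⟨hi0r, hi0⟩ := Nat.find_spec hex
  have hmin : ∀ i, i < Nat.find hex → (i.factorial : ℝ) * es x U i ≤ fp i κ * X ^ i := by
    intro i hi
    have := Nat.find_min hex hi
    by_contra hc
    exact this ⟨by omega, not_le.mp hc⟩
  generalize hfi : Nat.find hex = i0 at hi0r hi0 hmin
  have h0 : i0 ≠ 0 := by
    rintro rfl
    simp [es_zero, fp_zero] at hi0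
  have h1 : i0 ≠ 1 := by
    rintro rfl
    rw [es_one, fp_succ, fp_zero] at hi0
    simp only [Nat.factorial_one, Nat.cast_one, one_mul, pow_one, Nat.cast_zero, zero_mul,
      sub_zero] at hi0
    exact lt_irrefl _ hi0
  obtain ⟨j, rfl⟩ : ∃ j, i0 = j + 2 := ⟨i0 - 2, by omega⟩
  have hXpos : 0 < X := by
    rcases eq_or_lt_of_le hX0 with hz | hz
    · exfalso
      have := es_le_pow x U hx (j + 2)
      rw [← hXdef, ← hz] at this
      rw [← hz] at hi0
      rw [zero_pow (by omega)] at this hi0
      rw [mul_zero] at hi0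
      linarith
    · exact hz
  have key : ∀ m, j ≤ m → m + 2 ≤ r →
      fp (m + 2) κ * X ^ (m + 2) < ((m + 2).factorial : ℝ) * es x U (m + 2) ∧
      (∑ v ∈ U, (x v) ^ 2 * es x (U.erase v) m) ≤ κ * X * (((m : ℝ) + 1) * es x U (m + 1)) ∧
      0 < es x U (m + 1) := by
    intro m hm
    induction m, hm using Nat.le_induction with
    | base =>
      intro hj
      have hp := hone (j + 1) (by omega)
      have hb := hmin (j + 1) (by omega)
      have hrec := es_rec x U j
      rw [← hXdef] at hrec
      have he2 : 0 < es x U (j + 2) := by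
        by_contra hc
        push Not at hc
        have h3 : ((j + 2).factorial : ℝ) * es x U (j + 2) ≤ 0 :=
          mul_nonpos_of_nonneg_of_nonpos (by positivity) hc
        have h4 : 0 < fp (j + 2) κ * X ^ (j + 2) := mul_pos (hfp _ hj) (by positivity)
        linarith
      have he1 : 0 < es x U (j + 1) := by
        rcases eq_or_lt_of_le (hen (j + 1)) with hz | hz
        · exfalso
          rw [← hz, mul_zero] at hrec
          have := hAn j
          have h5 : 0 < ((j : ℝ) + 2) * es x U (j + 2) := by positivity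
          linarith
        · exact hz
      refine ⟨hi0, ?_, he1⟩
      have hf : fp (j + 2) κ = fp (j + 1) κ * (1 - ((j : ℝ) + 1) * κ) := by
        have := fp_succ (j + 1) κ
        push_cast at this
        exact this
      have hp' : 0 < 1 - ((j : ℝ) + 1) * κ := by
        push_cast at hp
        exact hp
      have hfac : ((j + 2).factorial : ℝ) = ((j + 1).factorial : ℝ) * ((j : ℝ) + 2) := by
        rw [Nat.factorial_succ]
        push_cast
        ring
      have h6 : (1 - ((j : ℝ) + 1) * κ) * X * (((j + 1).factorial : ℝ) * es x U (j + 1))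
          ≤ (1 - ((j : ℝ) + 1) * κ) * X * (fp (j + 1) κ * X ^ (j + 1)) :=
        mul_le_mul_of_nonneg_left hb (by positivity)
      have h7 : (1 - ((j : ℝ) + 1) * κ) * X * (fp (j + 1) κ * X ^ (j + 1))
          = fp (j + 2) κ * X ^ (j + 2) := by
        rw [hf]
        ring
      have h8 : ((j + 1).factorial : ℝ) * ((1 - ((j : ℝ) + 1) * κ) * X * es x U (j + 1))
          < ((j + 1).factorial : ℝ) * (((j : ℝ) + 2) * es x U (j + 2)) := by
        calc ((j + 1).factorial : ℝ) * ((1 - ((j : ℝ) + 1) * κ) * X * es x U (j + 1))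
            = (1 - ((j : ℝ) + 1) * κ) * X * (((j + 1).factorial : ℝ) * es x U (j + 1)) := by ring
          _ ≤ fp (j + 2) κ * X ^ (j + 2) := by rw [← h7]; exact h6
          _ < ((j + 2).factorial : ℝ) * es x U (j + 2) := hi0
          _ = ((j + 1).factorial : ℝ) * (((j : ℝ) + 2) * es x U (j + 2)) := by rw [hfac]; ring
      have h9 := lt_of_mul_lt_mul_left h8 (by positivity)
      nlinarith
    | succ m hm ih =>
      intro hm3
      obtain ⟨q1, q2, q3⟩ := ih (by omega)
      have hp := hone (m + 2) (by omega)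
      push_cast at hp
      have he2 : 0 < es x U (m + 2) := by
        by_contra hc
        push Not at hc
        have h3 : ((m + 2).factorial : ℝ) * es x U (m + 2) ≤ 0 :=
          mul_nonpos_of_nonneg_of_nonpos (by positivity) hc
        have h4 : 0 < fp (m + 2) κ * X ^ (m + 2) := mul_pos (hfp _ (by omega)) (by positivity)
        linarith
      have hkm := h V x U hx m
      have h5 : (∑ v ∈ U, (x v) ^ 2 * es x (U.erase v) m) * (((m : ℝ) + 2) * es x U (m + 2))
          ≤ κ * X * (((m : ℝ) + 1) * es x U (m + 1)) * (((m : ℝ) + 2) * es x U (m + 2)) :=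
        mul_le_mul_of_nonneg_right q2 (by positivity)
      have h6 : (∑ v ∈ U, (x v) ^ 2 * es x (U.erase v) (m + 1))
          ≤ κ * X * (((m : ℝ) + 2) * es x U (m + 2)) := by
        have h7 : (∑ v ∈ U, (x v) ^ 2 * es x (U.erase v) (m + 1)) * (((m : ℝ) + 1) * es x U (m + 1))
            ≤ κ * X * (((m : ℝ) + 2) * es x U (m + 2)) * (((m : ℝ) + 1) * es x U (m + 1)) := by
          calc _ ≤ _ := hkm
            _ ≤ _ := h5
            _ = _ := by ring
        exact le_of_mul_le_mul_right h7 (by positivity)
      have hrec := es_rec x U (m + 1)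
      rw [← hXdef] at hrec
      push_cast at hrec
      refine ⟨?_, ?_, he2⟩
      · have hf : fp (m + 1 + 2) κ = fp (m + 2) κ * (1 - ((m : ℝ) + 2) * κ) := by
          have := fp_succ (m + 2) κ
          push_cast at this
          exact this
        have hfac : ((m + 1 + 2).factorial : ℝ) = ((m + 2).factorial : ℝ) * ((m : ℝ) + 3) := by
          have : (m + 1 + 2).factorial = (m + 3) * (m + 2).factorial := rfl
          rw [this]
          push_cast
          ring
        have h8 : (1 - ((m : ℝ) + 2) * κ) * X * es x U (m + 2)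
            ≤ ((m : ℝ) + 3) * es x U (m + 1 + 2) := by
          have e1 : ((m : ℝ) + 1 + 2) = (m : ℝ) + 3 := by ring
          rw [e1] at hrec
          have e2 : es x U (m + 1 + 1) = es x U (m + 2) := rfl
          rw [e2] at hrec
          nlinarith
        calc fp (m + 1 + 2) κ * X ^ (m + 1 + 2)
            = (1 - ((m : ℝ) + 2) * κ) * X * (fp (m + 2) κ * X ^ (m + 2)) := by rw [hf]; ring
          _ < (1 - ((m : ℝ) + 2) * κ) * X * (((m + 2).factorial : ℝ) * es x U (m + 2)) :=
            mul_lt_mul_of_pos_left q1 (by positivity)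
          _ = ((m + 2).factorial : ℝ) * ((1 - ((m : ℝ) + 2) * κ) * X * es x U (m + 2)) := by ring
          _ ≤ ((m + 2).factorial : ℝ) * (((m : ℝ) + 3) * es x U (m + 1 + 2)) :=
            mul_le_mul_of_nonneg_left h8 (by positivity)
          _ = ((m + 1 + 2).factorial : ℝ) * es x U (m + 1 + 2) := by rw [hfac]; ring
      · have e1 : (((m + 1 : ℕ) : ℝ) + 1) = (m : ℝ) + 2 := by push_cast; ring
        rw [e1]
        exact h6
  obtain ⟨m, hm⟩ : ∃ m, r = m + 2 := ⟨r - 2, by omega⟩
  obtain ⟨q1, -, -⟩ := key m (by omega) (by omega)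
  rw [← hm] at q1
  linarith

end Pool.Agent.W215.PH
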