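import Pool.Agent.W984.PH.Stm

set_option autoImplicit false

open Finset

namespace Pool.Agent.W215.PH

open Pool.Agent.W984.PH

/-- PH-ORD: choice of the three parts. -/
theorem ord : S_ORD := by
  classical
  intro V _ _ F a b G H A B hAB hdis hA hB
  have hAfree : ¬ Emb G F A := by
    intro h
    exact hdis A (univ \ A) disjoint_sdiff h hA
  let S : Finset (Finset V) := univ.filter (fun W => A ⊆ W ∧ W ⊆ B ∧ ¬ Emb G F W)
  have hS : S.Nonempty := ⟨A, by simp [S, hAB, hAfree]⟩
  obtain ⟨V1, hV1, hmax⟩ := Finset.exists_max_image S Finset.card hS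
  simp only [S, mem_filter, mem_univ, true_and] at hV1
  obtain ⟨h1, h2, h3⟩ := hV1
  have hne : ∃ v, v ∈ B ∧ v ∉ V1 := by
    by_contra hc
    push Not at hc
    have : V1 = B := Finset.Subset.antisymm h2 hc
    rw [this] at h3
    exact h3 hB
  obtain ⟨v, hvB, hvV⟩ := hne
  have hins : Emb G F (insert v V1) := by
    by_contra hc
    have hmem : insert v V1 ∈ S := by
      simp only [S, mem_filter, mem_univ, true_and]
      exact ⟨h1.trans (subset_insert _ _), insert_subset hvB h2, hc⟩
    have := hmax _ hmem
    rw [card_insert_of_notMem hvV] at this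
    omega
  refine ⟨V1, univ \ insert v V1, v, h1, h2, ?_, ?_, ?_, hvV, ?_, ?_, h3, ?_⟩
  · exact sdiff_subset_sdiff (Subset.refl _) (insert_subset hvB h2)
  · exact sdiff_subset_sdiff (Subset.refl _) (h1.trans (subset_insert _ _))
  · rw [Finset.disjoint_left]
    intro w hw hw'
    simp only [mem_sdiff, mem_univ, true_and, mem_insert, not_or] at hw'
    exact hw'.2 hw
  · simp
  · ext w
    simp only [mem_insert, mem_union, mem_sdiff, mem_univ, true_and, iff_true]
    tauto
  · intro h
    exact hdis (insert v V1) (univ \ insert v V1) disjoint_sdiff hins h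

end Pool.Agent.W215.PH
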